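import Pool.Agent.Y600.DC.Stm

/-!
# Balanced relations: two-colourings, colourings with many colours, integral covers
-/

set_option autoImplicit false

namespace Pool.Agent.K9h4.BC

open Pool.Agent.Y600.DC

/-- an index of the cycle of length `m` -/
theorem zmod_succ_val {m : ℕ} [NeZero m] (hm : 2 ≤ m) (i : ZMod m) :
    (i + 1).val = if i.val + 1 = m then 0 else i.val + 1 := by
  have : Fact (1 < m) := ⟨hm⟩
  rw [ZMod.val_add, ZMod.val_one]
  have := ZMod.val_lt i
  split_ifs with h
  · rw [h, Nat.mod_self]
  · exact Nat.mod_eq_of_lt (by omega)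

/-- Berge: a balanced relation has a good two-colouring of every finite set. -/
theorem bicol {I V : Type} {R : I → V → Prop} (hR : RelBalanced R) : ∀ W : Finset V,
    ∃ c : V → Bool, ∀ i, (∃ x ∈ W, ∃ y ∈ W, x ≠ y ∧ R i x ∧ R i y) →
      ∀ b : Bool, ∃ x ∈ W, R i x ∧ c x = b := by
  classical
  intro W
  induction hn : W.card using Nat.strong_induction_on generalizing W with
  | _ n ih =>
  subst hn
  rcases W.eq_empty_or_nonempty with rfl | ⟨w0, hw0⟩
  · exact ⟨fun _ => true, by simp⟩
  -- paths in the graph of traces of size two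
  let T : V → V → Prop := fun x y => x ∈ W ∧ y ∈ W ∧ x ≠ y ∧ ∃ i, ∀ z ∈ W, R i z ↔ (z = x ∨ z = y)
  have Tsymm : ∀ x y, T x y → T y x := by
    rintro x y ⟨h1, h2, h3, i, h4⟩
    exact ⟨h2, h1, h3.symm, i, fun z hz => (h4 z hz).trans or_comm⟩
  let Pth : ℕ → Prop := fun l => ∃ p : ℕ → V, (∀ i j, i ≤ l → j ≤ l → p i = p j → i = j) ∧
    (∀ i < l, T (p i) (p (i + 1))) ∧ p 0 ∈ W
  have hP0 : Pth 0 := ⟨fun _ => w0, fun i j hi hj _ => by omega, fun i hi => by omega, hw0⟩
  have hbound : ∀ l, Pth l → l ≤ W.card := by
    rintro l ⟨p, h1, h2, h3⟩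
    have h4 : ∀ i ≤ l, p i ∈ W := by
      intro i hi
      rcases i with _ | i
      · exact h3
      · exact (h2 i (by omega)).2.1
    have := Finset.card_le_card_of_injOn (s := Finset.range (l + 1)) (t := W) p
      (fun i hi => h4 i (by simpa [Nat.lt_succ_iff] using hi))
      (fun i hi j hj h => h1 i j (by simpa [Nat.lt_succ_iff] using hi)
        (by simpa [Nat.lt_succ_iff] using hj) h)
    rw [Finset.card_range] at this
    omega
  obtain ⟨l, ⟨p, hp1, hp2, hp3⟩, hmax⟩ : ∃ l, Pth l ∧ ∀ l', Pth l' → l' ≤ l := by
    have := Nat.findGreatest_spec (P := Pth) (m := 0) (n := W.card) (Nat.zero_le _) hP0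
    exact ⟨_, this, fun l' hl' => Nat.le_findGreatest (hbound l' hl') hl'⟩
  have hpW : ∀ i ≤ l, p i ∈ W := by
    intro i hi
    rcases i with _ | i
    · exact hp3
    · exact (hp2 i (by omega)).2.1
  -- every neighbour of the end is on the path
  have hend : ∀ y, T (p 0) y → ∃ i, 1 ≤ i ∧ i ≤ l ∧ p i = y := by
    intro y hy
    by_contra hcon
    push Not at hcon
    have : Pth (l + 1) := by
      refine ⟨fun i => if i = 0 then y else p (i - 1), ?_, ?_, ?_⟩
      · intro i j hi hj h
        by_cases h1 : i = 0 <;> by_cases h2 : j = 0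
        · omega
        · simp only [h1, h2, if_true, if_false] at h
          exfalso
          rcases Nat.lt_or_ge (j - 1) 1 with h3 | h3
          · have : j - 1 = 0 := by omega
            rw [this] at h
            exact hy.2.2.1 h.symm
          · exact hcon (j - 1) h3 (by omega) h.symm
        · simp only [h1, h2, if_true, if_false] at h
          exfalso
          rcases Nat.lt_or_ge (i - 1) 1 with h3 | h3
          · have : i - 1 = 0 := by omega
            rw [this] at h
            exact hy.2.2.1 h
          · exact hcon (i - 1) h3 (by omega) h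
        · simp only [h1, h2, if_false] at h
          have := hp1 _ _ (by omega) (by omega) h
          omega
      · intro i hi
        by_cases h1 : i = 0
        · subst h1
          simpa using Tsymm _ _ hy
        · obtain ⟨i, rfl⟩ : ∃ k, i = k + 1 := ⟨i - 1, by omega⟩
          simpa using hp2 i (by omega)
      · simpa using hy.2.1
    have := hmax _ this
    omega
  obtain ⟨c, hc⟩ := ih (W.erase (p 0)).card (Finset.card_erase_lt_of_mem (hpW 0 (Nat.zero_le _)))
    (W.erase (p 0)) rfl
  -- the colouring alternates along the path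
  have halt : ∀ i, 1 ≤ i → i < l → c (p (i + 1)) = !c (p i) := by
    intro i h1 h2
    obtain ⟨h3, h4, h5, e, h6⟩ := hp2 i h2
    have n0 : ∀ k, 1 ≤ k → k ≤ l → p k ≠ p 0 := fun k hk1 hk2 h => by
      have := hp1 k 0 hk2 (Nat.zero_le _) h
      omega
    have hm1 : p i ∈ W.erase (p 0) := Finset.mem_erase.2 ⟨n0 i h1 h2.le, h3⟩
    have hm2 : p (i + 1) ∈ W.erase (p 0) := Finset.mem_erase.2 ⟨n0 _ (by omega) h2, h4⟩
    obtain ⟨x, hx1, hx2, hx3⟩ := hc e ⟨_, hm1, _, hm2, h5, (h6 _ h3).2 (Or.inl rfl),
      (h6 _ h4).2 (Or.inr rfl)⟩ (!c (p i))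
    rcases (h6 x (Finset.mem_of_mem_erase hx1)).1 hx2 with rfl | rfl
    · cases h : c (p i) <;> simp [h] at hx3
    · exact hx3
  have hpar : ∀ d i, 1 ≤ i → i + d ≤ l → c (p (i + d)) = xor (c (p i)) (decide (d % 2 = 1)) := by
    intro d
    induction d with
    | zero => intro i _ _; simp
    | succ d ihd =>
      intro i h1 h2
      rw [← Nat.add_assoc, halt (i + d) (by omega) (by omega), ihd i h1 (by omega)]
      rcases Nat.mod_two_eq_zero_or_one d with h | h
      · have h' : (d + 1) % 2 = 1 := by omega
        simp [h, h']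
      · have h' : (d + 1) % 2 = 0 := by omega
        simp [h, h']
  -- all neighbours of the end have the same colour
  have hsame : ∀ y z, T (p 0) y → T (p 0) z → c y = c z := by
    have key : ∀ i j, 1 ≤ i → i < j → j ≤ l → T (p 0) (p i) → T (p 0) (p j) → c (p i) = c (p j) := by
      intro i j hi hij hj h1 h2
      by_contra hne
      have hodd : (j - i) % 2 = 1 := by
        rcases Nat.mod_two_eq_zero_or_one (j - i) with h | h
        · exfalso
          apply hne
          have := hpar (j - i) i hi (by omega)
          rw [show i + (j - i) = j by omega, h] at this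
          simpa using this.symm
        · exact h
      -- the odd cycle
      let m := j - i + 2
      have hm3 : 3 ≤ m := by omega
      have : NeZero m := ⟨by omega⟩
      let X : ZMod m → V := fun t => if t.val = 0 then p 0 else p (i + t.val - 1)
      have hXinj : Function.Injective X := by
        intro s t h
        apply ZMod.val_injective
        have hs := ZMod.val_lt s
        have ht := ZMod.val_lt t
        simp only [X] at h
        split_ifs at h with h3 h4 h4
        · omega
        · have := hp1 _ _ (by omega) (by omega) h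
          omega
        · have := hp1 _ _ (by omega) (by omega) h
          omega
        · have := hp1 _ _ (by omega) (by omega) h
          omega
      have hT : ∀ t : ZMod m, T (X t) (X (t + 1)) := by
        intro t
        have ht := ZMod.val_lt t
        have hv := zmod_succ_val (by omega) t
        by_cases h3 : t.val = 0
        · have h4 : (t + 1).val = 1 := by rw [hv, if_neg (by omega), h3]
          simp only [X, h3, h4, if_true]
          simpa using h1
        · by_cases h4 : t.val + 1 = m
          · have h5 : (t + 1).val = 0 := by rw [hv, if_pos h4]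
            simp only [X, h3, h5, if_true, if_false]
            rw [show i + t.val - 1 = j by omega]
            exact Tsymm _ _ h2
          · have h5 : (t + 1).val = t.val + 1 := by rw [hv, if_neg h4]
            have h6 : ¬ (t.val + 1 = 0) := by omega
            simp only [X, h3, h5, h6, if_false]
            have := hp2 (i + t.val - 1) (by omega)
            rwa [show i + t.val - 1 + 1 = i + (t.val + 1) - 1 by omega] at this
      choose e he using fun t => (hT t).2.2.2
      refine hR m ?_ hm3 e X hXinj fun s t => ?_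
      · exact Nat.odd_iff.2 (by omega)
      · rw [he s (X t) (hT t).1]
        constructor
        · rintro (h | h)
          · exact Or.inl (hXinj h)
          · exact Or.inr (hXinj h)
        · rintro (h | h)
          · exact Or.inl (by rw [h])
          · exact Or.inr (by rw [h])
    intro y z hy hz
    obtain ⟨i, hi1, hi2, rfl⟩ := hend y hy
    obtain ⟨j, hj1, hj2, rfl⟩ := hend z hz
    rcases Nat.lt_trichotomy i j with h | h | h
    · exact key i j hi1 h hj2 hy hz
    · rw [h]
    · exact (key j i hj1 h hi2 hz hy).symm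
  obtain ⟨b0, hb0⟩ : ∃ b0 : Bool, ∀ y, T (p 0) y → c y = b0 := by
    by_cases h : ∃ y, T (p 0) y
    · obtain ⟨y, hy⟩ := h
      exact ⟨c y, fun z hz => hsame z y hz hy⟩
    · push Not at h
      exact ⟨true, fun y hy => absurd hy (h y)⟩
  refine ⟨fun x => if x = p 0 then !b0 else c x, ?_⟩
  rintro i ⟨x, hx, y, hy, hxy, hRx, hRy⟩ b
  by_cases h2 : ∃ x' ∈ W.erase (p 0), ∃ y' ∈ W.erase (p 0), x' ≠ y' ∧ R i x' ∧ R i y'
  · obtain ⟨z, hz1, hz2, hz3⟩ := hc i h2 b
    refine ⟨z, Finset.mem_of_mem_erase hz1, hz2, ?_⟩
    beta_reduce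
    rw [if_neg (Finset.ne_of_mem_erase hz1)]
    exact hz3
  · push Not at h2
    -- one of `x`, `y` is the end of the path
    have hone : ∃ z, z ∈ W ∧ z ≠ p 0 ∧ R i z ∧ R i (p 0) := by
      by_cases hx0 : x = p 0
      · exact ⟨y, hy, fun h => hxy (by rw [hx0, h]), hRy, hx0 ▸ hRx⟩
      · by_cases hy0 : y = p 0
        · exact ⟨x, hx, hx0, hRx, hy0 ▸ hRy⟩
        · exact absurd hRy (h2 x (Finset.mem_erase.2 ⟨hx0, hx⟩) y (Finset.mem_erase.2 ⟨hy0, hy⟩) hxy hRx)
    obtain ⟨z, hz, hz0, hRz, hR0⟩ := hone
    have hTz : T (p 0) z := by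
      refine ⟨hpW 0 (Nat.zero_le _), hz, hz0.symm, i, fun u hu => ⟨fun hRu => ?_, ?_⟩⟩
      · by_contra hcon
        push Not at hcon
        exact h2 u (Finset.mem_erase.2 ⟨hcon.1, hu⟩) z (Finset.mem_erase.2 ⟨hz0, hz⟩) hcon.2 hRu hRz
      · rintro (rfl | rfl)
        · exact hR0
        · exact hRz
    have hcz := hb0 z hTz
    by_cases hb : b = b0
    · exact ⟨z, hz, hRz, by beta_reduce; rw [if_neg hz0, hcz, hb]⟩
    · refine ⟨p 0, hpW 0 (Nat.zero_le _), hR0, ?_⟩
      beta_reduce
      rw [if_pos rfl]
      cases b <;> cases b0 <;> simp_all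

/-- Berge: if every row of a balanced relation has at least `m` elements, then there is a colouring
with `m` colours such that all colours occur in every row. -/
theorem good {I V : Type} [Finite I] [Finite V] {R : I → V → Prop} (hR : RelBalanced R)
    (m : ℕ) (hm : 1 ≤ m) (hc : ∀ i, m ≤ {x | R i x}.ncard) :
    ∃ c : V → Fin m, ∀ i b, ∃ x, R i x ∧ c x = b := by
  classical
  have := Fintype.ofFinite I
  have := Fintype.ofFinite V
  have hne : Nonempty (Fin m) := ⟨⟨0, hm⟩⟩
  let cols : (V → Fin m) → I → Finset (Fin m) := fun c i =>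
    (Finset.univ.filter fun x => R i x).image c
  obtain ⟨c, -, hmax⟩ := Finset.exists_max_image (Finset.univ : Finset (V → Fin m))
    (fun c => ∑ i, (cols c i).card) ⟨fun _ => ⟨0, hm⟩, Finset.mem_univ _⟩
  refine ⟨c, fun i b => ?_⟩
  by_contra hcon
  push Not at hcon
  -- the colour `b` is missing, so some colour `b1` occurs twice
  have hcard : m ≤ (Finset.univ.filter fun x => R i x).card := by
    have h1 := hc i
    rwa [Set.ncard_eq_toFinset_card', Set.toFinset_ofPred] at h1
  have hlt : ((Finset.univ : Finset (Fin m)).erase b).card < (Finset.univ.filter fun x => R i x).card := by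
    rw [Finset.card_erase_of_mem (Finset.mem_univ _), Finset.card_univ, Fintype.card_fin]
    omega
  obtain ⟨x, hx, y, hy, hxy, hcxy⟩ := Finset.exists_ne_map_eq_of_card_lt_of_maps_to hlt (f := c)
    (fun x hx => by
      have hx' : R i x := (Finset.mem_filter.1 hx).2
      exact Finset.mem_erase.2 ⟨fun h => hcon x hx' h, Finset.mem_univ _⟩)
  have hRx : R i x := (Finset.mem_filter.1 hx).2
  have hRy : R i y := (Finset.mem_filter.1 hy).2
  set b1 := c x with hb1
  have hbb : b1 ≠ b := hcon x hRx
  let W : Finset V := Finset.univ.filter fun z => c z = b ∨ c z = b1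
  obtain ⟨d, hd⟩ := bicol hR W
  let c' : V → Fin m := fun z => if z ∈ W then (if d z then b else b1) else c z
  have hWm : ∀ z, z ∈ W ↔ (c z = b ∨ c z = b1) := fun z => by simp [W]
  have hother : ∀ j (a : Fin m), a ≠ b → a ≠ b1 → (a ∈ cols c' j ↔ a ∈ cols c j) := by
    intro j a ha hab
    simp only [cols, Finset.mem_image, Finset.mem_filter, Finset.mem_univ, true_and]
    constructor
    · rintro ⟨z, hz, hza⟩
      refine ⟨z, hz, ?_⟩
      simp only [c'] at hza
      split_ifs at hza with h1 h2
      · exact absurd hza.symm ha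
      · exact absurd hza.symm hab
      · exact hza
    · rintro ⟨z, hz, hza⟩
      refine ⟨z, hz, ?_⟩
      have : z ∉ W := fun h => by
        rcases (hWm z).1 h with h1 | h1
        · exact ha (hza.symm.trans h1)
        · exact hab (hza.symm.trans h1)
      simp only [c', this, if_false]
      exact hza
  -- the two colours together
  have htwo : ∀ j, (∃ z ∈ W, ∃ w ∈ W, z ≠ w ∧ R j z ∧ R j w) → b ∈ cols c' j ∧ b1 ∈ cols c' j := by
    intro j hj
    constructor
    · obtain ⟨z, hz1, hz2, hz3⟩ := hd j hj true
      simp only [cols, Finset.mem_image, Finset.mem_filter, Finset.mem_univ, true_and]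
      exact ⟨z, hz2, by simp [c', hz1, hz3]⟩
    · obtain ⟨z, hz1, hz2, hz3⟩ := hd j hj false
      simp only [cols, Finset.mem_image, Finset.mem_filter, Finset.mem_univ, true_and]
      exact ⟨z, hz2, by simp [c', hz1, hz3]⟩
  have hsplit : ∀ (f : V → Fin m) j, (cols f j).card =
      ((cols f j).filter fun a => a ≠ b ∧ a ≠ b1).card + ((if b ∈ cols f j then 1 else 0) +
        (if b1 ∈ cols f j then 1 else 0)) := by
    intro f j
    have h1 := Finset.card_filter_add_card_filter_not (s := cols f j) (fun a => a ≠ b ∧ a ≠ b1)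
    rw [← h1]
    congr 1
    have h2 : ((cols f j).filter fun a => ¬ (a ≠ b ∧ a ≠ b1)) =
        (if b ∈ cols f j then {b} else ∅) ∪ (if b1 ∈ cols f j then {b1} else ∅) := by
      ext a
      simp only [Finset.mem_filter, Finset.mem_union]
      constructor
      · rintro ⟨h3, h4⟩
        by_cases h5 : a = b
        · left
          rw [if_pos (h5 ▸ h3), h5]
          exact Finset.mem_singleton_self _
        · by_cases h6 : a = b1
          · right
            rw [if_pos (h6 ▸ h3), h6]
            exact Finset.mem_singleton_self _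
          · exact absurd ⟨h5, h6⟩ h4
      · rintro (h | h)
        · split_ifs at h with h3
          · rw [Finset.mem_singleton] at h
            subst h
            exact ⟨h3, by simp⟩
          · simp at h
        · split_ifs at h with h3
          · rw [Finset.mem_singleton] at h
            subst h
            exact ⟨h3, by simp⟩
          · simp at h
    rw [h2, Finset.card_union_of_disjoint]
    · split_ifs <;> simp
    · split_ifs <;> simp [hbb.symm]
  have hfilt : ∀ j, ((cols c' j).filter fun a => a ≠ b ∧ a ≠ b1) =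
      ((cols c j).filter fun a => a ≠ b ∧ a ≠ b1) := by
    intro j
    ext a
    simp only [Finset.mem_filter]
    constructor
    · rintro ⟨h1, h2, h3⟩
      exact ⟨(hother j a h2 h3).1 h1, h2, h3⟩
    · rintro ⟨h1, h2, h3⟩
      exact ⟨(hother j a h2 h3).2 h1, h2, h3⟩
  have hle : ∀ j, (cols c j).card ≤ (cols c' j).card := by
    intro j
    rw [hsplit c j, hsplit c' j, hfilt j]
    refine Nat.add_le_add_left ?_ _
    by_cases hj : ∃ z ∈ W, ∃ w ∈ W, z ≠ w ∧ R j z ∧ R j w
    · obtain ⟨h1, h2⟩ := htwo j hj
      rw [if_pos h1, if_pos h2]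
      split_ifs <;> omega
    · push Not at hj
      -- at most one element of `W` in the row
      by_cases h0 : ∃ z ∈ W, R j z
      · obtain ⟨z, hz, hRz⟩ := h0
        have huniq : ∀ w ∈ W, R j w → w = z := fun w hw hRw => by
          by_contra h
          exact hj z hz w hw (Ne.symm h) hRz hRw
        have hnot : ¬ (b ∈ cols c j ∧ b1 ∈ cols c j) := by
          rintro ⟨h1, h2⟩
          simp only [cols, Finset.mem_image, Finset.mem_filter, Finset.mem_univ, true_and] at h1 h2
          obtain ⟨u, hu1, hu2⟩ := h1
          obtain ⟨v, hv1, hv2⟩ := h2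
          have e1 := huniq u ((hWm u).2 (Or.inl hu2)) hu1
          have e2 := huniq v ((hWm v).2 (Or.inr hv2)) hv1
          rw [e1] at hu2
          rw [e2] at hv2
          exact hbb (hv2.symm.trans hu2)
        have hin : b ∈ cols c' j ∨ b1 ∈ cols c' j := by
          simp only [cols, Finset.mem_image, Finset.mem_filter, Finset.mem_univ, true_and]
          cases hdz : d z
          · exact Or.inr ⟨z, hRz, by simp [c', hz, hdz]⟩
          · exact Or.inl ⟨z, hRz, by simp [c', hz, hdz]⟩
        have : (if b ∈ cols c j then 1 else 0) + (if b1 ∈ cols c j then 1 else 0) ≤ 1 := by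
          by_cases h1 : b ∈ cols c j <;> by_cases h2 : b1 ∈ cols c j
          · exact absurd ⟨h1, h2⟩ hnot
          all_goals simp [h1, h2]
        have h3 : 1 ≤ (if b ∈ cols c' j then 1 else 0) + (if b1 ∈ cols c' j then 1 else 0) := by
          rcases hin with h | h <;> simp [h]
        omega
      · push Not at h0
        have h1 : b ∉ cols c j := by
          simp only [cols, Finset.mem_image, Finset.mem_filter, Finset.mem_univ, true_and, not_exists,
            not_and]
          exact fun u hu hcu => h0 u ((hWm u).2 (Or.inl hcu)) hu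
        have h2 : b1 ∉ cols c j := by
          simp only [cols, Finset.mem_image, Finset.mem_filter, Finset.mem_univ, true_and, not_exists,
            not_and]
          exact fun u hu hcu => h0 u ((hWm u).2 (Or.inr hcu)) hu
        simp [h1, h2]
  have hlt' : (cols c i).card < (cols c' i).card := by
    have hx' : x ∈ W := (hWm x).2 (Or.inr rfl)
    have hy' : y ∈ W := (hWm y).2 (Or.inr hcxy.symm)
    obtain ⟨h1, h2⟩ := htwo i ⟨x, hx', y, hy', hxy, hRx, hRy⟩
    rw [hsplit c i, hsplit c' i, hfilt i, if_pos h1, if_pos h2]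
    have h3 : b ∉ cols c i := by
      simp only [cols, Finset.mem_image, Finset.mem_filter, Finset.mem_univ, true_and, not_exists,
        not_and]
      exact fun u hu => hcon u hu
    rw [if_neg h3]
    split_ifs <;> omega
  have hsum := hmax c' (Finset.mem_univ _)
  have hsum' : ∑ j, (cols c j).card < ∑ j, (cols c' j).card :=
    Finset.sum_lt_sum (fun j _ => hle j) ⟨i, Finset.mem_univ _, hlt'⟩
  omega

open Classical in
/-- Integral covers from fractional covers for balanced relations. -/
theorem round {I V : Type} [Finite I] [Fintype V] {R : I → V → Prop} (hR : RelBalanced R)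
    (a : V → ℕ) (m : ℕ) (hm : 1 ≤ m)
    (ha : ∀ i, m ≤ ∑ x ∈ Finset.univ.filter (fun x => R i x), a x) :
    ∃ D : Finset V, (∀ i, ∃ x ∈ D, R i x) ∧ m * D.card ≤ ∑ x, a x := by
  let V' := Σ x : V, Fin (a x)
  let R' : I → V' → Prop := fun i y => R i y.1
  have hR' : RelBalanced R' := by
    intro n ho hn e x hx h
    have : NeZero n := ⟨by omega⟩
    refine hR n ho hn e (fun j => (x j).1) ?_ h
    intro j j' hjj
    have hjj' : (x j).1 = (x j').1 := hjj
    have key : ∀ i, (j = i ∨ j = i + 1) ↔ (j' = i ∨ j' = i + 1) := fun i => by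
      rw [← h i j, ← h i j']
      simp only [R']
      rw [hjj']
    have h1 := (key j).1 (Or.inl rfl)
    have h2 := (key (j - 1)).1 (Or.inr (by ring))
    rcases h1 with h1 | h1
    · exact h1.symm
    · rcases h2 with h2 | h2
      · exfalso
        have h3 : (2 : ZMod n) = 0 := by linear_combination h2 - h1
        have h4 : ((2 : ℕ) : ZMod n) = 0 := by exact_mod_cast h3
        rw [ZMod.natCast_eq_zero_iff] at h4
        have := Nat.le_of_dvd (by norm_num) h4
        omega
      · rw [h2]; ring
  have hcard : ∀ i, {y | R' i y}.ncard = ∑ x ∈ Finset.univ.filter (fun x => R i x), a x := by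
    intro i
    rw [Set.ncard_eq_toFinset_card']
    have : ({y | R' i y} : Set V').toFinset =
        (Finset.univ.filter (fun x => R i x)).sigma fun x => (Finset.univ : Finset (Fin (a x))) := by
      ext ⟨x, k⟩
      rw [Finset.mem_sigma]
      simp [R']
    rw [this, Finset.card_sigma]
    simp
  obtain ⟨c, hc⟩ := good hR' m hm (fun i => by rw [hcard]; exact ha i)
  let Cl : Fin m → Finset V' := fun b => Finset.univ.filter fun y => c y = b
  have hsum : ∑ b, (Cl b).card = ∑ x, a x := by
    have h1 : (Finset.univ : Finset V').card = ∑ b, (Cl b).card :=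
      Finset.card_eq_sum_card_fiberwise (f := c) (t := Finset.univ) (fun _ _ => Finset.mem_univ _)
    rw [← h1, Finset.card_univ, Fintype.card_sigma]
    simp
  obtain ⟨b, -, hb⟩ := Finset.exists_min_image (Finset.univ : Finset (Fin m)) (fun b => (Cl b).card)
    ⟨⟨0, hm⟩, Finset.mem_univ _⟩
  refine ⟨(Cl b).image Sigma.fst, fun i => ?_, ?_⟩
  · obtain ⟨y, hy1, hy2⟩ := hc i b
    exact ⟨y.1, Finset.mem_image_of_mem _ (by simp [Cl, hy2]), hy1⟩
  · calc m * ((Cl b).image Sigma.fst).card ≤ m * (Cl b).card :=
          Nat.mul_le_mul_left _ Finset.card_image_le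
      _ = ∑ _b' : Fin m, (Cl b).card := by simp
      _ ≤ ∑ b', (Cl b').card := Finset.sum_le_sum fun b' hb' => hb b' hb'
      _ = ∑ x, a x := hsum

end Pool.Agent.K9h4.BC
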