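import Pool.Agent.Lib.lead.CXBase
import Pool.Agent.Y600.DC.NB
import Pool.Agent.K9h4.BC.Bal

/-!
# Domination in graphs with a balanced closed neighbourhood matrix: the algorithm

Multiplicative weights: in every round a vertex with the heaviest closed neighbourhood is chosen, where
the weight of a vertex is divided by a constant factor each time it is dominated by the chosen vertex.
-/

set_option autoImplicit false

namespace Pool.Agent.K9h4.BC

open Pool.Agent.Lib.CX Pool.Agent.Y600.DC

/-- the number of rounds -/
def T (n : ℕ) : ℕ := 8 * (n + 1) ^ 4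

/-- equal or adjacent -/
def closeB (a : Gr) (u v : ℕ) : Bool := decide (u = v) || a.adjB u v

/-- how often `v` has been dominated by the chosen vertices -/
def cnt (a : Gr) (s : List ℕ) (v : ℕ) : ℕ := s.countP fun u => closeB a v u

/-- the weight of the closed neighbourhood of `u` -/
def load (a : Gr) (s : List ℕ) (u : ℕ) : ℕ :=
  (((List.range a.n).filter fun v => closeB a v u).map fun v =>
    (2 * a.n + 1) ^ cnt a s v * (2 * a.n + 2) ^ (s.length - cnt a s v)).sum

/-- the loads of all vertices -/
def loads (a : Gr) (s : List ℕ) : List ℕ := (List.range a.n).map fun u => load a s u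

/-- the chosen vertex -/
def pick (a : Gr) (s : List ℕ) : ℕ :=
  (loads a s).findIdx fun x => decide (∀ y ∈ loads a s, y ≤ x)

/-- one round -/
def step (a : Gr) (s : List ℕ) : List ℕ := pick a s :: s

/-- the chosen vertices -/
def run (a : Gr) : List ℕ := (step a)^[T a.n] []

/-- the algorithm -/
def alg (a : Gr × ℕ) : Bool := decide (∀ v < a.1.n, T a.1.n < (a.2 + 1) * cnt a.1 (run a.1) v)

theorem step_length (a : Gr) (k : ℕ) (s : List ℕ) : ((step a)^[k] s).length = s.length + k := by
  induction k generalizing s with
  | zero => rfl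
  | succ k ih => rw [Function.iterate_succ_apply, ih]; simp [step]; omega

theorem loads_length (a : Gr) (s : List ℕ) : (loads a s).length = a.n := by simp [loads]

theorem pick_le (a : Gr) (s : List ℕ) : pick a s ≤ a.n := by
  rw [← loads_length a s]
  exact List.findIdx_le_length

theorem step_mem (a : Gr) (k : ℕ) : ∀ x ∈ (step a)^[k] [], x ≤ a.n := by
  induction k with
  | zero => simp
  | succ k ih =>
    rw [Function.iterate_succ_apply']
    intro x hx
    rcases List.mem_cons.1 hx with rfl | hx
    · exact pick_le _ _
    · exact ih x hx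

theorem closeB_pt {α : Type} [Enc α] {a : α → Gr} {u v : α → ℕ} (ha : PT a) (hu : PT u) (hv : PT v) :
    PT (fun x => closeB (a x) (u x) (v x)) := by
  unfold closeB
  fun_prop

attribute [fun_prop] closeB_pt

theorem cnt_pt {α : Type} [Enc α] {a : α → Gr} {s : α → List ℕ} {v : α → ℕ} (ha : PT a) (hs : PT s)
    (hv : PT v) : PT (fun x => cnt (a x) (s x) (v x)) := by
  unfold cnt
  fun_prop

attribute [fun_prop] cnt_pt

theorem cnt_pb {α : Type} [Enc α] {a : α → Gr} {s : α → List ℕ} {v : α → ℕ} (hs : PT s) :
    PB (fun x => cnt (a x) (s x) (v x)) := by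
  unfold cnt
  fun_prop

attribute [fun_prop] cnt_pb

theorem load_pt {α : Type} [Enc α] {a : α → Gr} {s : α → List ℕ} {v : α → ℕ} (ha : PT a) (hs : PT s)
    (hv : PT v) : PT (fun x => load (a x) (s x) (v x)) := by
  unfold load
  fun_prop

attribute [fun_prop] load_pt

theorem loads_pt {α : Type} [Enc α] {a : α → Gr} {s : α → List ℕ} (ha : PT a) (hs : PT s) :
    PT (fun x => loads (a x) (s x)) := by
  unfold loads
  fun_prop

attribute [fun_prop] loads_pt

theorem pick_pt {α : Type} [Enc α] {a : α → Gr} {s : α → List ℕ} (ha : PT a) (hs : PT s) :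
    PT (fun x => pick (a x) (s x)) := by
  unfold pick
  fun_prop

attribute [fun_prop] pick_pt

theorem run_pt : PT run := by
  refine PT.iterate (F := step) (i := fun _ : Gr => ([] : List ℕ)) (n := fun a => T a.n)
    (B := fun a => T a.n * (size a.n + 1) + 2) ?_ ?_ ?_ ?_ ?_ ?_
  · unfold step
    fun_prop
  · fun_prop
  · unfold T
    fun_prop
  · unfold T
    fun_prop
  · unfold T
    fun_prop
  · intro a k hk
    refine (size_list_le (B := size a.n) fun x hx => size_nat_mono (step_mem a k x hx)).trans ?_
    rw [step_length]
    have : (([] : List ℕ).length + k) * (size a.n + 1) ≤ T a.n * (size a.n + 1) :=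
      Nat.mul_le_mul_right _ (by simpa using hk)
    omega

theorem alg_pt : PT alg := by
  have := run_pt
  unfold alg T
  fun_prop

end Pool.Agent.K9h4.BC
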