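import Pool.Agent.K9h4.BC.Alg

/-!
# Domination in graphs with a balanced closed neighbourhood matrix: correctness
-/

set_option autoImplicit false

namespace Pool.Agent.K9h4.BC

open Pool.Agent.Lib.CX Pool.Agent.Y600.DC

theorem closeB_iff (a : Gr) (u v : Fin a.n) : closeB a u.1 v.1 = true ↔ Close a.G u v := by
  have := a.adjB_iff u v
  rw [closeB, Bool.or_eq_true, decide_eq_true_eq, this, Close, Fin.ext_iff]

theorem close_symm {V : Type} {G : SimpleGraph V} {u v : V} (h : Close G u v) : Close G v u :=
  h.elim (fun h => Or.inl h.symm) (fun h => Or.inr h.symm)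

/-- the analysis of the weights, in numbers -/
theorem numbers {n d t c : ℕ} (hd : 1 ≤ d) (hdn : d ≤ n) (ht : t = T n) (hct : c ≤ t)
    (h : d ^ t * ((2 * n + 1) ^ c * (2 * n + 2) ^ (t - c)) ≤ n * (d * (2 * n + 2) - 1) ^ t) :
    t < (d + 1) * c := by
  by_contra hcon
  push Not at hcon
  have hn : 1 ≤ n := hd.trans hdn
  have hN1 : (1 : ℝ) ≤ n := by exact_mod_cast hn
  have hd1 : (1 : ℝ) ≤ d := by exact_mod_cast hd
  have hdn' : (d : ℝ) ≤ n := by exact_mod_cast hdn
  set N : ℝ := 2 * n + 2 with hN
  have hNpos : 0 < N := by positivity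
  have hN1' : 0 < N - 1 := by rw [hN]; linarith
  have hdN : 1 < (d : ℝ) * N := by
    rw [hN]
    nlinarith
  -- divide
  have h1 : (1 - 1 / N) ^ c ≤ n * (1 - 1 / (d * N)) ^ t := by
    have h2 : ((d : ℝ) ^ t * ((N - 1) ^ c * N ^ (t - c))) ≤ n * (d * N - 1) ^ t := by
      have h3 : ((d ^ t * ((2 * n + 1) ^ c * (2 * n + 2) ^ (t - c)) : ℕ) : ℝ) ≤
          ((n * (d * (2 * n + 2) - 1) ^ t : ℕ) : ℝ) := by exact_mod_cast h
      have h4 : ((d * (2 * n + 2) - 1 : ℕ) : ℝ) = d * N - 1 := by
        rw [Nat.cast_sub (by nlinarith)]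
        push_cast
        rw [hN]
      push_cast [h4] at h3
      have h5 : N - 1 = 2 * n + 1 := by rw [hN]; ring
      rw [h5]
      exact h3
    have hpos : (0 : ℝ) < (d * N) ^ t := by positivity
    have e1 : (d * N) ^ t * (1 - 1 / N) ^ c = (d : ℝ) ^ t * ((N - 1) ^ c * N ^ (t - c)) := by
      have : N ^ t = N ^ c * N ^ (t - c) := by rw [← pow_add, Nat.add_sub_cancel' hct]
      rw [mul_pow, this]
      have : (N - 1) ^ c = N ^ c * (1 - 1 / N) ^ c := by
        rw [← mul_pow]
        congr 1
        field_simp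
      rw [this]
      ring
    have e2 : (d * N) ^ t * (n * (1 - 1 / (d * N)) ^ t) = n * (d * N - 1) ^ t := by
      have : (d * N - 1) ^ t = (d * N) ^ t * (1 - 1 / (d * N)) ^ t := by
        rw [← mul_pow]
        congr 1
        field_simp
      rw [this]
      ring
    refine le_of_mul_le_mul_left ?_ hpos
    rw [e1, e2]
    exact h2
  have hA : 0 < 1 - 1 / N := by
    rw [sub_pos, div_lt_one hNpos]
    linarith
  have hB : 0 < 1 - 1 / (d * N) := by
    rw [sub_pos, div_lt_one (by linarith)]
    exact hdN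
  have h2 := Real.log_le_log (by positivity) h1
  rw [Real.log_pow, Real.log_mul (by positivity) (by positivity), Real.log_pow] at h2
  have h3 : Real.log (1 - 1 / (d * N)) ≤ - (1 / (d * N)) := by
    have := Real.log_le_sub_one_of_pos hB
    linarith
  have h4 : Real.log n ≤ n := by
    have := Real.log_le_sub_one_of_pos (show (0 : ℝ) < n by linarith)
    linarith
  have h5 : - (1 / (N - 1)) ≤ Real.log (1 - 1 / N) := by
    have := Real.one_sub_inv_le_log_of_pos hA
    have e : 1 - (1 - 1 / N)⁻¹ = - (1 / (N - 1)) := by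
      have : (1 - 1 / N) = (N - 1) / N := by field_simp
      rw [this, inv_div]
      field_simp
      ring
    rwa [e] at this
  have ht0 : (0 : ℝ) ≤ t := Nat.cast_nonneg _
  have hc0 : (0 : ℝ) ≤ c := Nat.cast_nonneg _
  have h6 : - ((c : ℝ) / (N - 1)) ≤ n - t / (d * N) := by
    calc - ((c : ℝ) / (N - 1)) = c * (- (1 / (N - 1))) := by ring
      _ ≤ c * Real.log (1 - 1 / N) := mul_le_mul_of_nonneg_left h5 hc0
      _ ≤ Real.log n + t * Real.log (1 - 1 / (d * N)) := h2
      _ ≤ n + t * (- (1 / (d * N))) := add_le_add h4 (mul_le_mul_of_nonneg_left h3 ht0)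
      _ = n - t / (d * N) := by ring
  -- clear denominators
  have h7 : (N - 1) * (t - n * d * N) ≤ c * d * N := by
    have hdN' : (0 : ℝ) < d * N := by linarith
    have e1 : (c : ℝ) / (N - 1) ≥ t / (d * N) - n := by linarith
    have e2 : t / (d * N) - n = (t - n * d * N) / (d * N) := by field_simp
    rw [e2, ge_iff_le, div_le_div_iff₀ hdN' hN1'] at e1
    linarith
  have h8 : ((d : ℝ) + 1) * c ≤ t := by exact_mod_cast hcon
  have h9 : (d + 1) * ((N - 1) * (t - n * d * N)) ≤ t * (d * N) := by
    calc ((d : ℝ) + 1) * ((N - 1) * (t - n * d * N)) ≤ (d + 1) * (c * d * N) :=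
          mul_le_mul_of_nonneg_left h7 (by linarith)
      _ = ((d + 1) * c) * (d * N) := by ring
      _ ≤ t * (d * N) := mul_le_mul_of_nonneg_right h8 (by linarith)
  have h10 : (t : ℝ) * (N - d - 1) ≤ (d + 1) * (N - 1) * (n * d * N) := by nlinarith
  have h11 : (t : ℝ) * (n + 1) ≤ t * (N - d - 1) := by
    refine mul_le_mul_of_nonneg_left ?_ ht0
    rw [hN]
    linarith
  have h12 : ((d : ℝ) + 1) * (N - 1) * (n * d * N) ≤ (n + 1) * (2 * n + 1) * (n * n * (2 * n + 2)) := by
    have e : N - 1 = 2 * n + 1 := by rw [hN]; ring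
    rw [e, ← hN]
    have g1 : ((d : ℝ) + 1) * (2 * n + 1) ≤ (n + 1) * (2 * n + 1) :=
      mul_le_mul_of_nonneg_right (by linarith) (by linarith)
    have g2 : (n : ℝ) * d * N ≤ n * n * N :=
      mul_le_mul_of_nonneg_right (mul_le_mul_of_nonneg_left hdn' (by linarith)) hNpos.le
    exact mul_le_mul g1 g2 (by positivity) (by positivity)
  have h13 : (t : ℝ) = 8 * (n + 1) ^ 4 := by
    rw [ht, T]
    push_cast
    ring
  rw [h13] at h11 h10
  have h14 : (8 * ((n : ℝ) + 1) ^ 4) * (n + 1) ≤ (n + 1) * (2 * n + 1) * (n * n * (2 * n + 2)) := by linarith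
  have h15 : ((n : ℝ) + 1) * (2 * n + 1) * (n * n * (2 * n + 2)) ≤
      (n + 1) * (2 * (n + 1)) * ((n + 1) * (n + 1) * (2 * (n + 1))) := by
    have : (0 : ℝ) ≤ n := by linarith
    gcongr <;> linarith
  have h16 : ((n : ℝ) + 1) * (2 * (n + 1)) * ((n + 1) * (n + 1) * (2 * (n + 1))) = 4 * (n + 1) ^ 5 := by ring
  have h17 : (8 * ((n : ℝ) + 1) ^ 4) * (n + 1) = 8 * (n + 1) ^ 5 := by ring
  have h18 : (0 : ℝ) < (n + 1) ^ 5 := by positivity
  linarith

section
variable (a : Gr)

/-- the weight of `v` -/
def wt (s : List ℕ) (v : ℕ) : ℕ := (2 * a.n + 1) ^ cnt a s v * (2 * a.n + 2) ^ (s.length - cnt a s v)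

theorem cnt_le (s : List ℕ) (v : ℕ) : cnt a s v ≤ s.length := List.countP_le_length

theorem cnt_cons (s : List ℕ) (u v : ℕ) :
    cnt a (u :: s) v = cnt a s v + if closeB a v u then 1 else 0 := by
  rw [cnt, cnt, List.countP_cons]

theorem wt_cons (s : List ℕ) (u v : ℕ) :
    wt a (u :: s) v + (if closeB a v u then wt a s v else 0) = (2 * a.n + 2) * wt a s v := by
  have h := cnt_le a s v
  unfold wt
  rw [cnt_cons, List.length_cons]
  split_ifs
  · rw [show s.length + 1 - (cnt a s v + 1) = s.length - cnt a s v by omega]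
    ring
  · rw [show s.length + 1 - (cnt a s v + 0) = (s.length - cnt a s v) + 1 by omega]
    ring

/-- the total weight -/
def tot (s : List ℕ) : ℕ := ∑ v ∈ Finset.range a.n, wt a s v

theorem load_eq (s : List ℕ) (u : ℕ) :
    load a s u = ∑ v ∈ Finset.range a.n, if closeB a v u then wt a s v else 0 := by
  rw [load, ← Finset.sum_filter]
  have : (Finset.range a.n).filter (fun v => closeB a v u = true) =
      ((List.range a.n).filter fun v => closeB a v u).toFinset := by
    ext v
    simp
  rw [this, List.sum_toFinset _ (List.nodup_range.filter _)]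
  rfl

theorem tot_cons (s : List ℕ) (u : ℕ) : tot a (u :: s) + load a s u = (2 * a.n + 2) * tot a s := by
  rw [tot, tot, load_eq, ← Finset.sum_add_distrib, Finset.mul_sum]
  exact Finset.sum_congr rfl fun v _ => wt_cons a s u v

theorem pick_spec (s : List ℕ) (hn : 0 < a.n) :
    pick a s < a.n ∧ ∀ u < a.n, load a s u ≤ load a s (pick a s) := by
  have hne : (loads a s) ≠ [] := by
    intro h
    have := loads_length a s
    rw [h] at this
    simp at this
    omega
  obtain ⟨x, hx, hmax⟩ : ∃ x ∈ loads a s, ∀ y ∈ loads a s, y ≤ x := by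
    obtain ⟨x, hx, h⟩ := Finset.exists_max_image (loads a s).toFinset id
      ⟨(loads a s).head hne, by simp⟩
    exact ⟨x, by simpa using hx, fun y hy => h y (by simpa using hy)⟩
  have h1 : pick a s < (loads a s).length :=
    List.findIdx_lt_length_of_exists ⟨x, hx, by simpa using hmax⟩
  have h2 := List.findIdx_getElem (w := h1)
  rw [decide_eq_true_eq] at h2
  have h3 : pick a s < a.n := by rwa [loads_length] at h1
  refine ⟨h3, fun u hu => ?_⟩
  have h4 : (loads a s)[pick a s]'h1 = load a s (pick a s) := by simp [loads]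
  have h5 := h2 (load a s u) (by simp only [loads, List.mem_map, List.mem_range]; exact ⟨u, hu, rfl⟩)
  rw [← h4]
  exact h5

/-- one round decreases the total weight -/
theorem tot_step {D : Finset (Fin a.n)} (hD : Dominating a.G D) (s : List ℕ) (hn : 0 < a.n) :
    D.card * tot a (step a s) ≤ (D.card * (2 * a.n + 2) - 1) * tot a s := by
  obtain ⟨-, h2⟩ := pick_spec a s hn
  have h3 : tot a s ≤ D.card * load a s (pick a s) := by
    calc tot a s ≤ ∑ v ∈ Finset.range a.n, ∑ u ∈ D, (if closeB a v u.1 then wt a s v else 0) := by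
          refine Finset.sum_le_sum fun v hv => ?_
          have hv' := Finset.mem_range.1 hv
          obtain ⟨u, hu, huv⟩ : ∃ u ∈ D, closeB a v u.1 = true := by
            by_cases h : (⟨v, hv'⟩ : Fin a.n) ∈ D
            · exact ⟨_, h, (closeB_iff a ⟨v, hv'⟩ ⟨v, hv'⟩).2 (Or.inl rfl)⟩
            · obtain ⟨w, hw, hvw⟩ := hD _ h
              exact ⟨w, hw, (closeB_iff a ⟨v, hv'⟩ w).2 (Or.inr hvw)⟩
          refine le_trans (le_of_eq ?_) (Finset.single_le_sum (f := fun u : Fin a.n =>
            if closeB a v u.1 then wt a s v else 0) (fun _ _ => Nat.zero_le _) hu)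
          rw [if_pos huv]
      _ = ∑ u ∈ D, load a s u.1 := by
          rw [Finset.sum_comm]
          exact Finset.sum_congr rfl fun u _ => (load_eq a s u.1).symm
      _ ≤ ∑ _u ∈ D, load a s (pick a s) := Finset.sum_le_sum fun u _ => h2 u.1 u.2
      _ = D.card * load a s (pick a s) := by rw [Finset.sum_const, smul_eq_mul]
  have h4 := tot_cons a s (pick a s)
  have h5 : D.card * tot a (step a s) + D.card * load a s (pick a s) =
      D.card * (2 * a.n + 2) * tot a s := by
    rw [← Nat.mul_add, step, h4]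
    ring
  rw [Nat.sub_mul, one_mul]
  omega

theorem tot_run {D : Finset (Fin a.n)} (hD : Dominating a.G D) (hn : 0 < a.n) (t : ℕ) :
    D.card ^ t * tot a ((step a)^[t] []) ≤ a.n * (D.card * (2 * a.n + 2) - 1) ^ t := by
  induction t with
  | zero => simp [tot, wt, cnt]
  | succ t ih =>
    rw [Function.iterate_succ_apply', pow_succ, mul_assoc]
    calc D.card ^ t * (D.card * tot a (step a ((step a)^[t] [])))
        ≤ D.card ^ t * ((D.card * (2 * a.n + 2) - 1) * tot a ((step a)^[t] [])) :=
          Nat.mul_le_mul_left _ (tot_step a hD _ hn)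
      _ = (D.card * (2 * a.n + 2) - 1) * (D.card ^ t * tot a ((step a)^[t] [])) := by ring
      _ ≤ (D.card * (2 * a.n + 2) - 1) * (a.n * (D.card * (2 * a.n + 2) - 1) ^ t) :=
          Nat.mul_le_mul_left _ ih
      _ = _ := by ring

/-- a small dominating set makes the algorithm accept -/
theorem mwu {D : Finset (Fin a.n)} (hD : Dominating a.G D) (v : ℕ) (hv : v < a.n) :
    T a.n < (D.card + 1) * cnt a (run a) v := by
  have hn : 0 < a.n := by omega
  have hd : 1 ≤ D.card := by
    rw [Nat.one_le_iff_ne_zero, Ne, Finset.card_eq_zero]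
    rintro rfl
    obtain ⟨w, hw, -⟩ := hD ⟨v, hv⟩ (by simp)
    simp at hw
  have hdn : D.card ≤ a.n := by simpa using D.card_le_univ
  have hlen : (run a).length = T a.n := by rw [run, step_length]; simp
  refine numbers (n := a.n) (d := D.card) (t := T a.n) (c := cnt a (run a) v) hd hdn rfl
    (by rw [← hlen]; exact cnt_le a _ _) ?_
  refine le_trans (Nat.mul_le_mul_left _ ?_) (tot_run a hD hn (T a.n))
  have h1 : wt a (run a) v ≤ tot a (run a) :=
    Finset.single_le_sum (f := fun v => wt a (run a) v) (fun _ _ => Nat.zero_le _)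
      (Finset.mem_range.2 hv)
  rw [wt, hlen] at h1
  exact h1

/-- acceptance gives a small dominating set -/
theorem accept (hb : NbBalanced a.G) (hn : 0 < a.n) {k : ℕ}
    (h : ∀ v < a.n, T a.n < (k + 1) * cnt a (run a) v) :
    ∃ D : Finset (Fin a.n), Dominating a.G D ∧ D.card ≤ k := by
  classical
  have hR : RelBalanced (fun v u : Fin a.n => Close a.G v u) := by
    intro m ho hm e x hx hex
    have : NeZero m := ⟨by omega⟩
    refine hb m ho hm e x ?_ hx hex
    intro i j hij
    have h1 := (hex i i).2 (Or.inl rfl)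
    have h2 := (hex j j).2 (Or.inl rfl)
    rw [hij] at h1
    rw [← hij] at h2
    have h3 := (hex j i).1 h1
    have h4 := (hex i j).1 h2
    rcases h3 with h3 | h3
    · exact h3
    · rcases h4 with h4 | h4
      · exact h4.symm
      · exfalso
        have h5 : (2 : ZMod m) = 0 := by linear_combination -h3 - h4
        have h6 : ((2 : ℕ) : ZMod m) = 0 := by exact_mod_cast h5
        rw [ZMod.natCast_eq_zero_iff] at h6
        have := Nat.le_of_dvd (by norm_num) h6
        omega
  have hlen : (run a).length = T a.n := by rw [run, step_length]; simp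
  have hpos : ∀ v < a.n, 1 ≤ cnt a (run a) v := by
    intro v hv
    have := h v hv
    rcases Nat.eq_zero_or_pos (cnt a (run a) v) with h0 | h0
    · rw [h0] at this
      omega
    · exact h0
  obtain ⟨v0, hv0, hmin⟩ := Finset.exists_min_image (Finset.range a.n) (fun v => cnt a (run a) v)
    ⟨0, Finset.mem_range.2 hn⟩
  have hv0' := Finset.mem_range.1 hv0
  set m := cnt a (run a) v0 with hm
  have hmem : ∀ x ∈ run a, x < a.n := by
    have : ∀ t, ∀ x ∈ (step a)^[t] [], x < a.n := by
      intro t
      induction t with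
      | zero => simp
      | succ t ih =>
        rw [Function.iterate_succ_apply']
        intro x hx
        rcases List.mem_cons.1 hx with rfl | hx
        · exact (pick_spec a _ hn).1
        · exact ih x hx
    exact this _
  have hsum : ∀ (l : List ℕ) (P : ℕ → Bool), (∀ x ∈ l, x < a.n) →
      l.countP P = ∑ x ∈ (Finset.univ : Finset (Fin a.n)).filter (fun x => P x.1 = true), l.count x.1 := by
    intro l P hl
    induction l with
    | nil => simp
    | cons y l ih =>
      rw [List.countP_cons, ih fun x hx => hl x (List.mem_cons_of_mem _ hx)]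
      have hy := hl y List.mem_cons_self
      simp only [List.count_cons, Finset.sum_add_distrib]
      congr 1
      rw [Finset.sum_filter]
      have : ∀ x : Fin a.n, (if P x.1 = true then (if (y == x.1) = true then 1 else 0) else 0) =
          if x = ⟨y, hy⟩ then (if P y = true then 1 else 0) else 0 := by
        intro x
        by_cases hx : x = ⟨y, hy⟩
        · subst hx; simp
        · have : y ≠ x.1 := fun h => hx (Fin.ext h.symm)
          simp [hx, this]
      rw [Finset.sum_congr rfl fun x _ => this x]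
      simp
  obtain ⟨D, hD1, hD2⟩ := round hR (fun x => (run a).count x.1) m (hpos v0 hv0') (fun v => by
    have h1 := hmin v.1 (Finset.mem_range.2 v.2)
    rw [cnt, hsum _ _ hmem] at h1
    refine h1.trans (le_of_eq ?_)
    refine Finset.sum_congr ?_ fun _ _ => rfl
    ext x
    simp only [Finset.mem_filter, Finset.mem_univ, true_and]
    exact closeB_iff a v x)
  have htot : ∑ x : Fin a.n, (run a).count x.1 = T a.n := by
    have := hsum (run a) (fun _ => true) hmem
    simp only [List.countP_true, Finset.filter_true] at this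
    rw [← hlen, this]
  refine ⟨D, fun v hv => ?_, ?_⟩
  · obtain ⟨x, hx, hvx⟩ := hD1 v
    rcases hvx with h1 | h1
    · rw [← h1] at hx
      exact absurd hx hv
    · exact ⟨x, hx, h1⟩
  · rw [htot] at hD2
    have h1 := h v0 hv0'
    rw [← hm] at h1
    have h2 : m * D.card < m * (k + 1) := by
      rw [mul_comm m (k + 1)]
      omega
    have := Nat.lt_of_mul_lt_mul_left h2
    omega

theorem alg_correct (hb : NbBalanced a.G) (k : ℕ) :
    alg (a, k) = true ↔ ∃ D : Finset (Fin a.n), Dominating a.G D ∧ D.card ≤ k := by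
  rw [alg, decide_eq_true_eq]
  rcases Nat.eq_zero_or_pos a.n with h0 | hn
  · refine iff_of_true (fun v hv => ?_) ⟨∅, fun v => ?_, by simp⟩
    · have : v < a.n := hv
      omega
    · exact absurd v.2 (by omega)
  · constructor
    · exact accept a hb hn
    · rintro ⟨D, hD, hk⟩ v hv
      exact lt_of_lt_of_le (mwu a hD v hv) (Nat.mul_le_mul_right _ (by omega))

end

end Pool.Agent.K9h4.BC
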